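import Pool.Agent.H61.HB.Stmts

/-!
Project HB, row ENE (energy identity).
-/

set_option autoImplicit false

namespace HB

open Filter Topology Set

/-- continuous scalar path in `H^s` -/
def CtsS (s T : ℝ) (h : ℝ → Z2 → ℂ) : Prop :=
  (∀ t ∈ Icc 0 T, MemS s (h t)) ∧
  ∀ t ∈ Icc 0 T, Tendsto (fun r => nqS s (h r - h t)) (𝓝[Icc 0 T] t) (𝓝 0)

theorem ctsS_con (hCON : CONStmt) {s T : ℝ} {h : ℝ → Z2 → ℂ} (hh : CtsS s T h) :
    (∀ k, ContinuousOn (fun t => h t k) (Icc 0 T)) ∧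
      ContinuousOn (fun t => nqS s (h t)) (Icc 0 T) := by
  have key : Cts s T (fun t => (fun _ => h t : V)) := by
    refine ⟨fun t ht j => hh.1 t ht, fun t ht => ?_⟩
    have h1 := (hh.2 t ht).const_mul 2
    rw [mul_zero] at h1
    refine h1.congr fun r => ?_
    simp only [nsq, Fin.sum_univ_two]
    have : ∀ j : Fin 2, ((fun _ => h r : V) - (fun _ => h t : V)) j = h r - h t := fun j => rfl
    rw [this 0, this 1]; ring
  obtain ⟨h1, h2⟩ := hCON s T _ key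
  refine ⟨fun k => h1 0 k, ?_⟩
  have h3 := h2.const_smul (1 / 2 : ℝ)
  refine h3.congr fun t _ => ?_
  simp only [nsq, Fin.sum_univ_two, Pi.smul_apply, smul_eq_mul]
  ring

theorem ctsS_mono (hMMB : MMBStmt) {r s T : ℝ} (hrs : r ≤ s) {h : ℝ → Z2 → ℂ}
    (hh : CtsS s T h) : CtsS r T h := by
  obtain ⟨h0, h1, h2, -, -, -⟩ := hMMB
  refine ⟨fun t ht => (h1 r s _ hrs (hh.1 t ht)).1, fun t ht => ?_⟩
  refine squeeze_zero' (Eventually.of_forall fun _ => h0 _ _) ?_ (hh.2 t ht)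
  filter_upwards [self_mem_nhdsWithin] with x hx
  exact (h1 r s _ hrs (h2 s _ _ (hh.1 x hx) (hh.1 t ht)).1).2

theorem nqS_zero_eq (f : Z2 → ℂ) : nqS 0 f = ∑' k, ‖f k‖ ^ 2 := by
  unfold nqS
  refine tsum_congr fun k => ?_
  rw [Real.rpow_zero, one_mul]

theorem memS_zero_iff (f : Z2 → ℂ) : MemS 0 f ↔ Summable fun k => ‖f k‖ ^ 2 := by
  unfold MemS
  refine summable_congr fun k => ?_
  rw [Real.rpow_zero, one_mul]

theorem sq_nonneg' (k : Z2) : 0 ≤ sq k := by unfold sq; positivity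

/-- `‖lin c w‖² ≤ |c|² ‖w‖²`, coefficientwise -/
theorem lin_norm_sq_le (c : Fin 2 → ℝ) (w : V) (k : Z2) :
    ‖lin c w k‖ ^ 2 ≤ (c 0 ^ 2 + c 1 ^ 2) * (‖w 0 k‖ ^ 2 + ‖w 1 k‖ ^ 2) := by
  have h1 : ‖lin c w k‖ ≤ |c 0| * ‖w 0 k‖ + |c 1| * ‖w 1 k‖ := by
    unfold lin
    rw [Fin.sum_univ_two]
    refine (norm_add_le _ _).trans ?_
    rw [norm_mul, norm_mul, Complex.norm_real, Complex.norm_real, Real.norm_eq_abs,
      Real.norm_eq_abs]
  have h2 : ‖lin c w k‖ ^ 2 ≤ (|c 0| * ‖w 0 k‖ + |c 1| * ‖w 1 k‖) ^ 2 :=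
    pow_le_pow_left₀ (norm_nonneg _) h1 2
  refine h2.trans ?_
  rw [← sq_abs (c 0), ← sq_abs (c 1)]
  nlinarith [sq_nonneg (|c 0| * ‖w 1 k‖ - |c 1| * ‖w 0 k‖)]

theorem ctsS_lin (hMMB : MMBStmt) (hLIN : LINStmt) {s T : ℝ} {u : ℝ → V} (hu : Cts s T u)
    (c : Fin 2 → ℝ) : CtsS s T (fun t => lin c (u t)) := by
  obtain ⟨h0, h1, h2, h3, h4, h5⟩ := hMMB
  refine ⟨fun t ht => hLIN.2.2.2 c s _ (hu.1 t ht), fun t ht => ?_⟩
  have hl := (hu.2 t ht).const_mul (c 0 ^ 2 + c 1 ^ 2)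
  rw [mul_zero] at hl
  refine squeeze_zero' (Eventually.of_forall fun _ => h0 _ _) ?_ hl
  filter_upwards [self_mem_nhdsWithin] with x hx
  have hw : Mem s (u x - u t) := (h5 s _ _ (hu.1 x hx) (hu.1 t ht)).1
  have e1 : lin c (u x) - lin c (u t) = lin c (u x - u t) := by
    funext k
    simp only [lin, Fin.sum_univ_two, Pi.sub_apply]
    ring
  rw [e1]
  have hw0 := hw 0
  have hw1 := hw 1
  have hsum : nsq s (u x - u t) = ∑' k, ((1 + sq k) ^ s * ‖(u x - u t) 0 k‖ ^ 2 +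
      (1 + sq k) ^ s * ‖(u x - u t) 1 k‖ ^ 2) := by
    unfold nsq nqS
    rw [Fin.sum_univ_two]
    exact (Summable.tsum_add hw0 hw1).symm
  rw [hsum, ← tsum_mul_left]
  unfold nqS
  refine Summable.tsum_le_tsum (fun k => ?_) (hLIN.2.2.2 c s _ hw) ((hw0.add hw1).mul_left _)
  have hp : (0 : ℝ) ≤ (1 + sq k) ^ s := Real.rpow_nonneg (by have := sq_nonneg' k; linarith) _
  have := mul_le_mul_of_nonneg_left (lin_norm_sq_le c (u x - u t) k) hp
  calc (1 + sq k) ^ s * ‖lin c (u x - u t) k‖ ^ 2 ≤ _ := this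
    _ = _ := by ring

theorem cts_mono (hMMB : MMBStmt) {r s T : ℝ} (hrs : r ≤ s) {u : ℝ → V}
    (hu : Cts s T u) : Cts r T u := by
  obtain ⟨h0, h1, h2, h3, h4, h5⟩ := hMMB
  refine ⟨fun t ht => (h4 r s _ hrs (hu.1 t ht)).1, fun t ht => ?_⟩
  refine squeeze_zero' (Eventually.of_forall fun _ => h3 _ _) ?_ (hu.2 t ht)
  filter_upwards [self_mem_nhdsWithin] with x hx
  exact (h4 r s _ hrs (h5 s _ _ (hu.1 x hx) (hu.1 t ht)).1).2

theorem off_sub (f g : Z2 → ℂ) : off f - off g = off (f - g) := by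
  funext k
  simp only [off, Pi.sub_apply]
  split_ifs <;> simp

theorem norm_off_le (f : Z2 → ℂ) (k : Z2) : ‖off f k‖ ≤ ‖f k‖ := by
  unfold off
  split_ifs
  · rw [norm_zero]; exact norm_nonneg _
  · exact le_rfl

theorem memS_off {f : Z2 → ℂ} (hf : MemS 0 f) : MemS 0 (off f) := by
  rw [memS_zero_iff] at hf ⊢
  exact hf.of_nonneg_of_le (fun k => by positivity)
    (fun k => pow_le_pow_left₀ (norm_nonneg _) (norm_off_le f k) 2)

theorem nqS_off_le {f : Z2 → ℂ} (hf : MemS 0 f) : nqS 0 (off f) ≤ nqS 0 f := by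
  have h1 := memS_off hf
  rw [memS_zero_iff] at hf h1
  rw [nqS_zero_eq, nqS_zero_eq]
  exact Summable.tsum_le_tsum (fun k => pow_le_pow_left₀ (norm_nonneg _) (norm_off_le f k) 2) h1 hf

theorem ctsS_off (hMMB : MMBStmt) {T : ℝ} {h : ℝ → Z2 → ℂ} (hh : CtsS 0 T h) :
    CtsS 0 T (fun t => off (h t)) := by
  obtain ⟨h0, h1, h2, -, -, -⟩ := hMMB
  refine ⟨fun t ht => memS_off (hh.1 t ht), fun t ht => ?_⟩
  refine squeeze_zero' (Eventually.of_forall fun _ => h0 _ _) ?_ (hh.2 t ht)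
  filter_upwards [self_mem_nhdsWithin] with x hx
  rw [off_sub]
  exact nqS_off_le (h2 0 _ _ (hh.1 x hx) (hh.1 t ht)).1

theorem ctsS_add (hMMB : MMBStmt) {s T : ℝ} {f g : ℝ → Z2 → ℂ} (hf : CtsS s T f)
    (hg : CtsS s T g) : CtsS s T (fun t => f t + g t) := by
  obtain ⟨h0, h1, h2, -, -, -⟩ := hMMB
  refine ⟨fun t ht => (h2 s _ _ (hf.1 t ht) (hg.1 t ht)).2.1, fun t ht => ?_⟩
  have hl := ((hf.2 t ht).const_mul 2).add ((hg.2 t ht).const_mul 2)
  rw [mul_zero, add_zero] at hl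
  refine squeeze_zero' (Eventually.of_forall fun _ => h0 _ _) ?_ hl
  filter_upwards [self_mem_nhdsWithin] with x hx
  have e1 : f x + g x - (f t + g t) = (f x - f t) + (g x - g t) := by abel
  rw [e1]
  exact (h2 s _ _ (h2 s _ _ (hf.1 x hx) (hf.1 t ht)).1
    (h2 s _ _ (hg.1 x hx) (hg.1 t ht)).1).2.2.2

theorem ctsS_sub (hMMB : MMBStmt) {s T : ℝ} {f g : ℝ → Z2 → ℂ} (hf : CtsS s T f)
    (hg : CtsS s T g) : CtsS s T (fun t => f t - g t) := by
  obtain ⟨h0, h1, h2, -, -, -⟩ := hMMB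
  refine ⟨fun t ht => (h2 s _ _ (hf.1 t ht) (hg.1 t ht)).1, fun t ht => ?_⟩
  have hl := ((hf.2 t ht).const_mul 2).add ((hg.2 t ht).const_mul 2)
  rw [mul_zero, add_zero] at hl
  refine squeeze_zero' (Eventually.of_forall fun _ => h0 _ _) ?_ hl
  filter_upwards [self_mem_nhdsWithin] with x hx
  have e1 : f x - g x - (f t - g t) = (f x - f t) - (g x - g t) := by abel
  rw [e1]
  exact (h2 s _ _ (h2 s _ _ (hf.1 x hx) (hf.1 t ht)).1
    (h2 s _ _ (hg.1 x hx) (hg.1 t ht)).1).2.2.1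

theorem rpow_one' (k : Z2) : (1 + sq k) ^ (1 : ℝ) = 1 + sq k := Real.rpow_one _

theorem rpow_two' (k : Z2) : (1 + sq k) ^ (2 : ℝ) = (1 + sq k) ^ 2 := Real.rpow_two _

theorem summable_ds (hMMB : MMBStmt) {f : Z2 → ℂ} (hf : MemS 2 f) :
    Summable (fun k => sq k ^ 2 * ‖f k‖ ^ 2) ∧
      dsS f = nqS 2 f - 2 * nqS 1 f + nqS 0 f := by
  obtain ⟨h0, h1, h2, -, -, -⟩ := hMMB
  have hf1 : MemS 1 f := (h1 1 2 f (by norm_num) hf).1
  have hf0 : MemS 0 f := (h1 0 2 f (by norm_num) hf).1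
  have hs := (hf.sub (hf1.mul_left 2)).add hf0
  have e : ∀ k, (1 + sq k) ^ (2 : ℝ) * ‖f k‖ ^ 2 - 2 * ((1 + sq k) ^ (1 : ℝ) * ‖f k‖ ^ 2) +
      (1 + sq k) ^ (0 : ℝ) * ‖f k‖ ^ 2 = sq k ^ 2 * ‖f k‖ ^ 2 := by
    intro k
    rw [rpow_one', rpow_two', Real.rpow_zero]; ring
  refine ⟨hs.congr fun k => e k, ?_⟩
  have h3 := (hf.hasSum.sub (hf1.hasSum.mul_left 2)).add hf0.hasSum
  have h4 : HasSum (fun k => sq k ^ 2 * ‖f k‖ ^ 2)
      (nqS 2 f - 2 * nqS 1 f + nqS 0 f) := by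
    have e' : (fun k => (1 + sq k) ^ (2 : ℝ) * ‖f k‖ ^ 2 -
        2 * ((1 + sq k) ^ (1 : ℝ) * ‖f k‖ ^ 2) + (1 + sq k) ^ (0 : ℝ) * ‖f k‖ ^ 2) =
        fun k => sq k ^ 2 * ‖f k‖ ^ 2 := funext e
    rw [← e']
    exact h3
  exact h4.tsum_eq

theorem prd_eq (hMMB : MMBStmt) {f g : Z2 → ℂ} (hf : MemS 0 f) (hg : MemS 0 g) :
    Summable (fun k => ((starRingEnd ℂ) (off f k) * g k).re) ∧
      prd f g = 1 / 4 * (nqS 0 (off f + g) - nqS 0 (off f - g)) := by
  obtain ⟨h0, h1, h2, -, -, -⟩ := hMMB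
  have hp := (h2 0 _ _ (memS_off hf) hg).2.1
  have hm := (h2 0 _ _ (memS_off hf) hg).1
  rw [memS_zero_iff] at hp hm
  have e : ∀ k, 1 / 4 * (‖(off f + g) k‖ ^ 2 - ‖(off f - g) k‖ ^ 2) =
      ((starRingEnd ℂ) (off f k) * g k).re := by
    intro k
    rw [Pi.add_apply, Pi.sub_apply, ← Complex.normSq_eq_norm_sq, ← Complex.normSq_eq_norm_sq]
    simp only [Complex.normSq_apply, Complex.add_re, Complex.add_im, Complex.sub_re,
      Complex.sub_im, Complex.mul_re, Complex.conj_re, Complex.conj_im]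
    ring
  have hs := (hp.sub hm).mul_left (1 / 4)
  refine ⟨hs.congr fun k => e k, ?_⟩
  rw [nqS_zero_eq, nqS_zero_eq, ← Summable.tsum_sub hp hm, ← tsum_mul_left]
  unfold prd
  exact tsum_congr fun k => (e k).symm

theorem two_re_le (a b : ℂ) : |2 * ((starRingEnd ℂ) a * b).re| ≤ ‖a‖ ^ 2 + ‖b‖ ^ 2 := by
  have h1 : |((starRingEnd ℂ) a * b).re| ≤ ‖a‖ * ‖b‖ := by
    refine (Complex.abs_re_le_norm _).trans ?_
    rw [norm_mul, RCLike.norm_conj]
  rw [abs_mul, abs_two]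
  nlinarith [sq_nonneg (‖a‖ - ‖b‖)]

/-- **ENE** -/
theorem ene_thm (hCON : CONStmt) (hADC : ADCStmt) (hLIN : LINStmt) (hMMB : MMBStmt) :
    ENEStmt := by
  intro ν s T u hν hs hT hu c
  have hcu : Cts s T u := hu.cts
  have hcu2 : Cts 2 T u := cts_mono hMMB hs hcu
  have hcg : Cts 0 T (fun t => adv (u t) (u t)) :=
    cts_mono hMMB (by linarith) (hADC s T u hs hcu)
  have hf2 : CtsS 2 T (fun t => lin c (u t)) := ctsS_lin hMMB hLIN hcu2 c
  have hf1 : CtsS 1 T (fun t => lin c (u t)) := ctsS_mono hMMB (by norm_num) hf2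
  have hf0 : CtsS 0 T (fun t => lin c (u t)) := ctsS_mono hMMB (by norm_num) hf2
  have hg0 : CtsS 0 T (fun t => lin c (adv (u t) (u t))) := ctsS_lin hMMB hLIN hcg c
  set f : ℝ → Z2 → ℂ := fun t => lin c (u t) with hf
  set g : ℝ → Z2 → ℂ := fun t => lin c (adv (u t) (u t)) with hg
  have hof : CtsS 0 T (fun t => off (f t)) := ctsS_off hMMB hf0
  -- continuity
  have cds : ContinuousOn (fun t => dsS (f t)) (Icc 0 T) := by
    have h := (((ctsS_con hCON hf2).2).sub (((ctsS_con hCON hf1).2).const_smul (2 : ℝ))).add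
      (ctsS_con hCON hf0).2
    refine h.congr fun t ht => ?_
    rw [(summable_ds hMMB (hf2.1 t ht)).2]
    simp [smul_eq_mul]
  have cpr : ContinuousOn (fun t => prd (f t) (g t)) (Icc 0 T) := by
    have h := (((ctsS_con hCON (ctsS_add hMMB hof hg0)).2).sub
      (ctsS_con hCON (ctsS_sub hMMB hof hg0)).2).const_smul (1 / 4 : ℝ)
    refine h.congr fun t ht => ?_
    rw [(prd_eq hMMB (hf0.1 t ht) (hg0.1 t ht)).2]
    simp [smul_eq_mul]
  refine ⟨cds, ?_⟩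
  -- the derivative of a coefficient
  have hder : ∀ k, ∀ t ∈ Icc 0 T, HasDerivWithinAt (fun r => off (f r) k)
      (-((ν * sq k ^ 2 : ℝ) : ℂ) * off (f t) k - off (g t) k) (Icc 0 T) t := by
    intro k t ht
    by_cases hk : k = 0
    · have e1 : (fun r => off (f r) k) = fun _ => (0 : ℂ) := by
        funext r; simp [off, hk]
      rw [e1]
      have e2 : (-((ν * sq k ^ 2 : ℝ) : ℂ) * off (f t) k - off (g t) k) = 0 := by
        simp [off, hk]
      rw [e2]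
      exact hasDerivWithinAt_const _ _ _
    · have e1 : (fun r => off (f r) k) = fun r => (c 0 : ℂ) * u r 0 k + (c 1 : ℂ) * u r 1 k := by
        funext r; simp [off, hk, hf, lin, Fin.sum_univ_two]
      rw [e1]
      have h := ((hu.eqn 0 k t ht).const_mul (c 0 : ℂ)).add
        ((hu.eqn 1 k t ht).const_mul (c 1 : ℂ))
      refine h.congr_deriv ?_
      simp only [off, hk, if_false, hf, hg, lin, Fin.sum_univ_two]
      ring
  have hoff : ∀ (x y : Z2 → ℂ) (k : Z2), (starRingEnd ℂ) (off x k) * off y k =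
      (starRingEnd ℂ) (off x k) * y k := by
    intro x y k
    by_cases hk : k = 0
    · simp [off, hk]
    · simp [off, hk]
  let D : Z2 → ℝ → ℝ := fun k t => -2 * ν * (sq k ^ 2 * ‖f t k‖ ^ 2) -
    2 * ((starRingEnd ℂ) (off (f t) k) * g t k).re
  have hsq0 : sq (0 : Z2) = 0 := by simp [sq]
  have hsqoff : ∀ (x : Z2 → ℂ) (k : Z2), sq k ^ 2 * ‖off x k‖ ^ 2 = sq k ^ 2 * ‖x k‖ ^ 2 := by
    intro x k
    by_cases hk : k = 0
    · rw [hk, hsq0]; simp
    · simp [off, hk]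
  have hphi : ∀ k, ∀ t ∈ Icc 0 T, HasDerivWithinAt (fun r => ‖off (f r) k‖ ^ 2) (D k t)
      (Icc 0 T) t := by
    intro k t ht
    have h := (hder k t ht).norm_sq
    refine h.congr_deriv ?_
    rw [Complex.inner, mul_comm _ ((starRingEnd ℂ) (off (f t) k)), mul_sub, hoff]
    have e3 : (starRingEnd ℂ) (off (f t) k) * (-((ν * sq k ^ 2 : ℝ) : ℂ) * off (f t) k) =
        ((-(ν * sq k ^ 2) * ‖off (f t) k‖ ^ 2 : ℝ) : ℂ) := by
      have e4 : (starRingEnd ℂ) (off (f t) k) * off (f t) k = ((‖off (f t) k‖ ^ 2 : ℝ) : ℂ) := by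
        rw [← Complex.normSq_eq_conj_mul_self, Complex.normSq_eq_norm_sq]
      push_cast
      push_cast at e4
      linear_combination (-(ν * sq k ^ 2 : ℂ)) * e4
    rw [Complex.sub_re, e3, Complex.ofReal_re]
    have := hsqoff (f t) k
    simp only [D]
    linear_combination (-2 * ν) * this
  -- the sum of the derivatives
  let Ψ : ℝ → ℝ := fun t => -2 * ν * dsS (f t) - 2 * prd (f t) (g t)
  have hΨc : ContinuousOn Ψ (Icc 0 T) := by
    have h := (cds.const_smul (-2 * ν)).sub (cpr.const_smul (2 : ℝ))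
    refine h.congr fun t _ => ?_
    simp [Ψ, smul_eq_mul]
  have hsumD : ∀ t ∈ Icc 0 T, HasSum (fun k => D k t) (Ψ t) := by
    intro t ht
    have h1 := (summable_ds hMMB (hf2.1 t ht)).1.hasSum.mul_left (-2 * ν)
    have h2 := (prd_eq hMMB (hf0.1 t ht) (hg0.1 t ht)).1.hasSum.mul_left 2
    exact h1.sub h2
  let bd : Z2 → ℝ → ℝ := fun k t => 2 * ν * (sq k ^ 2 * ‖f t k‖ ^ 2) + (‖f t k‖ ^ 2 + ‖g t k‖ ^ 2)
  have hbd : ∀ k t, ‖D k t‖ ≤ bd k t := by
    intro k t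
    have h1 := two_re_le (off (f t) k) (g t k)
    have h2 : ‖off (f t) k‖ ^ 2 ≤ ‖f t k‖ ^ 2 :=
      pow_le_pow_left₀ (norm_nonneg _) (norm_off_le _ k) 2
    have h3 : 0 ≤ 2 * ν * (sq k ^ 2 * ‖f t k‖ ^ 2) := by positivity
    rw [Real.norm_eq_abs]
    refine (abs_sub _ _).trans ?_
    have h4 : |(-2 * ν * (sq k ^ 2 * ‖f t k‖ ^ 2))| = 2 * ν * (sq k ^ 2 * ‖f t k‖ ^ 2) := by
      rw [show -2 * ν * (sq k ^ 2 * ‖f t k‖ ^ 2) = -(2 * ν * (sq k ^ 2 * ‖f t k‖ ^ 2)) by ring,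
        abs_neg, abs_of_nonneg h3]
    rw [h4]
    simp only [bd]
    linarith
  have hbs : ∀ t ∈ Icc 0 T, HasSum (fun k => bd k t)
      (2 * ν * dsS (f t) + (nqS 0 (f t) + nqS 0 (g t))) := by
    intro t ht
    have h1 := (summable_ds hMMB (hf2.1 t ht)).1.hasSum.mul_left (2 * ν)
    have h2 := ((memS_zero_iff _).1 (hf0.1 t ht)).hasSum
    have h3 := ((memS_zero_iff _).1 (hg0.1 t ht)).hasSum
    rw [← nqS_zero_eq] at h2 h3
    exact h1.add (h2.add h3)
  have hbc : ContinuousOn (fun t => 2 * ν * dsS (f t) + (nqS 0 (f t) + nqS 0 (g t)))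
      (Icc 0 T) := by
    have h := (cds.const_smul (2 * ν)).add ((ctsS_con hCON hf0).2.add (ctsS_con hCON hg0).2)
    refine h.congr fun t _ => ?_
    simp [smul_eq_mul]
  have hDc : ∀ k, ContinuousOn (fun t => D k t) (Icc 0 T) := by
    intro k
    have c1 : ContinuousOn (fun t => f t k) (Icc 0 T) := (ctsS_con hCON hf0).1 k
    have c2 : ContinuousOn (fun t => off (f t) k) (Icc 0 T) := (ctsS_con hCON hof).1 k
    have c3 : ContinuousOn (fun t => g t k) (Icc 0 T) := (ctsS_con hCON hg0).1 k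
    have c4 : ContinuousOn (fun t => ((starRingEnd ℂ) (off (f t) k) * g t k).re) (Icc 0 T) :=
      Complex.continuous_re.comp_continuousOn
        ((Complex.continuous_conj.comp_continuousOn c2).mul c3)
    exact ((((c1.norm).pow 2).const_mul (sq k ^ 2)).const_mul (-2 * ν)).sub (c4.const_mul 2)
  -- the integrated identity
  have hint : ∀ t ∈ Icc 0 T, flS (f t) = flS (f 0) + ∫ r in (0 : ℝ)..t, Ψ r := by
    intro t ht
    have hsub : Icc 0 t ⊆ Icc 0 T := Icc_subset_Icc le_rfl ht.2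
    have h0T : (0 : ℝ) ∈ Icc 0 T := ⟨le_rfl, hT⟩
    have huI : Set.uIcc 0 t = Icc 0 t := uIcc_of_le ht.1
    have hftc : ∀ k, ∫ r in (0 : ℝ)..t, D k r = ‖off (f t) k‖ ^ 2 - ‖off (f 0) k‖ ^ 2 := by
      intro k
      refine intervalIntegral.integral_eq_sub_of_hasDerivAt_of_le ht.1
        (f := fun r => ‖off (f r) k‖ ^ 2) ?_ ?_ ?_
      · exact fun r hr => ((hphi k r (hsub hr)).continuousWithinAt).mono hsub
      · intro r hr
        exact (hphi k r ⟨hr.1.le, hr.2.le.trans ht.2⟩).hasDerivAt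
          (Icc_mem_nhds hr.1 (hr.2.trans_le ht.2))
      · refine ContinuousOn.intervalIntegrable ?_
        rw [huI]
        exact (hDc k).mono hsub
    have hdom := intervalIntegral.hasSum_integral_of_dominated_convergence (μ := MeasureTheory.volume)
      (a := 0) (b := t) (F := D) (f := Ψ) bd
      (fun k => (((hDc k).mono (by rw [uIoc_of_le ht.1]; exact Ioc_subset_Icc_self.trans hsub) :
        ContinuousOn (fun r => D k r) (uIoc 0 t)).aestronglyMeasurable measurableSet_uIoc))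
      (fun k => Eventually.of_forall fun r _ => hbd k r)
      (Eventually.of_forall fun r hr => (hbs r (by
        rw [uIoc_of_le ht.1] at hr
        exact hsub (Ioc_subset_Icc_self hr))).summable)
      (by
        have h1 : ContinuousOn (fun r => ∑' k, bd k r) (Set.uIcc 0 t) := by
          rw [huI]
          exact (hbc.mono hsub).congr fun r hr => (hbs r (hsub hr)).tsum_eq
        exact h1.intervalIntegrable)
      (Eventually.of_forall fun r hr => hsumD r (by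
        rw [uIoc_of_le ht.1] at hr
        exact hsub (Ioc_subset_Icc_self hr)))
    simp only [hftc] at hdom
    have s1 := ((memS_zero_iff _).1 (hof.1 t ht)).hasSum
    have s2 := ((memS_zero_iff _).1 (hof.1 0 h0T)).hasSum
    have h3 := hdom.unique (s1.sub s2)
    have h4 : flS (f t) = ∑' k, ‖off (f t) k‖ ^ 2 := rfl
    have h5 : flS (f 0) = ∑' k, ‖off (f 0) k‖ ^ 2 := rfl
    rw [h4, h5, h3]
    ring
  -- differentiate
  intro t ht
  let Ψe : ℝ → ℝ := IccExtend hT (fun x : Icc (0 : ℝ) T => Ψ x)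
  have hΨe : Continuous Ψe := (hΨc.restrict).Icc_extend'
  have hΨeq : ∀ r ∈ Icc 0 T, Ψe r = Ψ r := by
    intro r hr
    exact IccExtend_of_mem hT _ hr
  have hd : HasDerivAt (fun r => flS (f 0) + ∫ x in (0 : ℝ)..r, Ψe x) (Ψe t) t :=
    (intervalIntegral.integral_hasDerivAt_right (hΨe.intervalIntegrable 0 t)
      hΨe.stronglyMeasurable.stronglyMeasurableAtFilter hΨe.continuousAt).const_add _
  rw [hΨeq t ht] at hd
  refine (hd.hasDerivWithinAt (s := Icc 0 T)).congr (fun r hr => ?_) ?_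
  · rw [hint r hr]
    congr 1
    refine intervalIntegral.integral_congr fun x hx => ?_
    rw [uIcc_of_le hr.1] at hx
    exact (hΨeq x ⟨hx.1, hx.2.trans hr.2⟩).symm
  · rw [hint t ht]
    congr 1
    refine intervalIntegral.integral_congr fun x hx => ?_
    rw [uIcc_of_le ht.1] at hx
    exact (hΨeq x ⟨hx.1, hx.2.trans ht.2⟩).symm

end HB
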