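import Pool.Agent.H61.HB.Stmts5
import Pool.Agent.H22.HB.HMC

/-!
Row HM3 of board fn3: small fluctuation in `H^(-3/2)`.
-/

set_option autoImplicit false

namespace HB

open HMC in
theorem hm3_hp (v₀ : V) : hp (cst v₀) = 0 := by
  unfold hp hpS
  refine Finset.sum_eq_zero fun j _ => ?_
  have h : ∀ k : Z2, √(sq k) * ‖cst v₀ j k‖ ^ 2 = 0 := by
    intro k
    by_cases hk : k = 0
    · rw [hk, sq_zero, Real.sqrt_zero, zero_mul]
    · rw [cst_ne v₀ j k hk]
      simp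
  simp only [h, tsum_zero]

open HMC in
theorem hm3_hn (v₀ : V) : hn (v₀ - cst v₀) = hn v₀ := by
  unfold hn hnS
  refine Finset.sum_congr rfl fun j _ => tsum_congr fun k => ?_
  have h : off ((v₀ - cst v₀) j) k = off (v₀ j) k := by
    unfold off
    by_cases hk : k = 0
    · rw [if_pos hk, if_pos hk]
    · rw [if_neg hk, if_neg hk, Pi.sub_apply, Pi.sub_apply, cst_ne v₀ j k hk, sub_zero]
  rw [h]

open HMC in
theorem hm3_thm (hCB3 : CB3Stmt) : HM3Stmt := by
  obtain ⟨C, c, hC, hc, hS⟩ := hCB3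
  refine ⟨c, hc, fun ν s v₀ hν hs hmem hreal hsm => ?_⟩
  refine hS ν s 0 (fun _ => cst v₀) v₀ hν hs le_rfl
    (fun T _ => ⟨sol_cst ν s T v₀, fun t _ => rl_cst v₀ hreal⟩) (fun T _ => ?_) hmem hreal ?_
  · simp only [hm3_hp]
    simp
  · simp only [hm3_hn, mu_cst]
    rw [mul_zero, Real.exp_zero, mul_one, add_zero]
    exact hsm

end HB
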