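import Pool.Agent.H61.HB.Stmts4
import Pool.Agent.H91.HB.TWC

/-!
Project HB (MP_91403e_an), row WTA of board fnd: the linear terms with the weight `1/|k|²`.
-/

set_option autoImplicit false

namespace HB

private theorem wta_add {k l : Z2} (hk : k ≠ 0) :
    √(sq (k - l)) ≤ √(sq k) * (1 + √(sq l)) ∧ √(sq l) ≤ √(sq k) * (1 + √(sq l)) := by
  have h1 : 1 ≤ √(sq k) := by
    rw [Real.one_le_sqrt]
    exact twc_sq_one hk
  have h0 : 0 ≤ √(sq l) := Real.sqrt_nonneg _
  refine ⟨?_, by nlinarith⟩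
  have htri : √(sq (k - l)) ≤ √(sq k) + √(sq l) := by
    apply Real.sqrt_le_iff.2
    refine ⟨by positivity, ?_⟩
    have e1 : √(sq k) ^ 2 = sq k := Real.sq_sqrt (twc_sq_nonneg k)
    have e2 : √(sq l) ^ 2 = sq l := Real.sq_sqrt (twc_sq_nonneg l)
    have e3 : (k.1 : ℝ) * l.1 + k.2 * l.2 ≥ - (√(sq k) * √(sq l)) := by
      have h := abs_le_of_sq_le_sq (a := (k.1 : ℝ) * l.1 + k.2 * l.2) (b := √(sq k) * √(sq l)) (by
        rw [mul_pow, e1, e2]
        unfold sq
        nlinarith [sq_nonneg ((k.1 : ℝ) * l.2 - k.2 * l.1)]) (by positivity)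
      linarith [(abs_le.1 h).1]
    have e4 : sq (k - l) = sq k + sq l - 2 * ((k.1 : ℝ) * l.1 + k.2 * l.2) := by
      unfold sq
      simp only [Prod.fst_sub, Prod.snd_sub, Int.cast_sub]
      ring
    rw [e4, add_sq, e1, e2]
    linarith
  nlinarith

private theorem wta_sqrt (w : V) (l : Z2) : √(∑ i, ‖w i l‖ ^ 2) ≤ ∑ i, ‖w i l‖ := by
  apply Real.sqrt_le_iff.2
  refine ⟨Finset.sum_nonneg fun i _ => norm_nonneg _, ?_⟩
  rw [Fin.sum_univ_two, Fin.sum_univ_two]
  nlinarith [norm_nonneg (w 0 l), norm_nonneg (w 1 l),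
    mul_nonneg (norm_nonneg (w 0 l)) (norm_nonneg (w 1 l))]

/-- the `L²` norm of one component -/
private theorem wta_q (hGRF : GRFStmt) (φ : V) (hφ : Mem 2 φ) (i : Fin 2) :
    ∑' l, ‖φ i l‖ ^ 2 ≤ flu φ + mu φ := by
  have h1 := (hGRF.1 (φ i) (hφ i)).1
  rw [h1.tsum_eq_add_tsum_ite 0]
  have e : ∑' n : Z2, (if n = 0 then 0 else ‖φ i n‖ ^ 2) = flS (φ i) := by
    unfold flS
    refine tsum_congr fun n => ?_
    unfold off
    split_ifs <;> simp
  rw [e]
  have h2 : flS (φ i) ≤ flu φ := by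
    unfold flu
    exact Finset.single_le_sum (f := fun j => flS (φ j))
      (fun j _ => tsum_nonneg fun k => sq_nonneg _) (Finset.mem_univ i)
  have h3 : ‖φ i 0‖ ^ 2 ≤ mu φ := by
    unfold mu
    exact Finset.single_le_sum (f := fun j => ‖φ j 0‖ ^ 2) (fun j _ => sq_nonneg _)
      (Finset.mem_univ i)
  linarith

theorem wta_thm (hYNG : YNGStmt) (hGRF : GRFStmt) : WTAStmt := by
  refine ⟨6, by norm_num, ?_⟩
  intro φ A hφ hA hW
  set p : Z2 → ℝ := fun l => ∑ i, (1 + √(sq l)) * ‖A i l‖ with hp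
  have hp0 : ∀ l, 0 ≤ p l := fun l => Finset.sum_nonneg fun i _ => by positivity
  have hps : Summable p := summable_sum fun i _ => hW i
  have hpt : ∑' l, p l = wn A := by
    unfold wn
    exact Summable.tsum_finsetSum fun i _ => hW i
  have hP0 : 0 ≤ wn A := by
    rw [← hpt]
    exact tsum_nonneg hp0
  have hpj : ∀ j l, (1 + √(sq l)) * ‖A j l‖ ≤ p l := fun j l =>
    Finset.single_le_sum (f := fun i => (1 + √(sq l)) * ‖A i l‖) (fun i _ => by positivity)
      (Finset.mem_univ j)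
  have hqs : ∀ i, Summable fun l => ‖φ i l‖ ^ 2 := fun i => (hGRF.1 (φ i) (hφ i)).1
  have hY := fun i => hYNG p (fun l => ‖φ i l‖) hp0 (fun l => norm_nonneg _) hps (hqs i)
  set c : Fin 2 → Z2 → ℝ := fun i k => ∑' l, p l * ‖φ i (k - l)‖ with hc
  have hc0 : ∀ i k, 0 ≤ c i k := fun i k =>
    tsum_nonneg fun l => mul_nonneg (hp0 l) (norm_nonneg _)
  -- the bounds of `adv`
  have hb1 : ∀ j k, k ≠ 0 → ‖adv A φ j k‖ ≤ √(sq k) * c j k := by
    intro j k hk
    refine tsum_of_norm_bounded (((hY j).1 k).hasSum.mul_left (√(sq k))) fun l => ?_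
    refine (twc_trm A (φ j) k l).trans ?_
    have h1 := wta_sqrt A l
    have h2 := (wta_add (l := l) hk).1
    have h3 : (∑ i, ‖A i l‖) * √(sq (k - l)) ≤ √(sq k) * p l := by
      calc (∑ i, ‖A i l‖) * √(sq (k - l)) ≤ (∑ i, ‖A i l‖) * (√(sq k) * (1 + √(sq l))) :=
            mul_le_mul_of_nonneg_left h2 (Finset.sum_nonneg fun i _ => norm_nonneg _)
        _ = √(sq k) * p l := by
            rw [hp]
            simp only
            rw [← Finset.mul_sum]
            ring
    calc √(∑ i, ‖A i l‖ ^ 2) * (√(sq (k - l)) * ‖φ j (k - l)‖)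
        ≤ (∑ i, ‖A i l‖) * (√(sq (k - l)) * ‖φ j (k - l)‖) :=
          mul_le_mul_of_nonneg_right h1 (by positivity)
      _ = ((∑ i, ‖A i l‖) * √(sq (k - l))) * ‖φ j (k - l)‖ := by ring
      _ ≤ (√(sq k) * p l) * ‖φ j (k - l)‖ := mul_le_mul_of_nonneg_right h3 (norm_nonneg _)
      _ = √(sq k) * (p l * ‖φ j (k - l)‖) := by ring
  have hsub : ∀ i k, HasSum (fun l => p (k - l) * ‖φ i l‖) (c i k) := by
    intro i k
    have h1 := (Equiv.subLeft k).hasSum_iff.mpr ((hY i).1 k).hasSum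
    have e : (fun l => p (k - l) * ‖φ i l‖) =
        (fun l => p l * (fun l => ‖φ i l‖) (k - l)) ∘ (Equiv.subLeft k) := by
      funext l
      simp [Function.comp, Equiv.subLeft]
    rw [e]
    exact h1
  have hb2 : ∀ j k, k ≠ 0 → ‖adv φ A j k‖ ≤ √(sq k) * ∑ i, c i k := by
    intro j k hk
    refine tsum_of_norm_bounded
      ((hasSum_sum (s := Finset.univ) fun i _ => hsub i k).mul_left (√(sq k))) fun l => ?_
    refine (twc_trm φ (A j) k l).trans ?_
    have h1 := wta_sqrt φ l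
    have h2 := (wta_add (l := k - l) hk).2
    have h3 : √(sq (k - l)) * ‖A j (k - l)‖ ≤ √(sq k) * p (k - l) := by
      calc √(sq (k - l)) * ‖A j (k - l)‖ ≤ (√(sq k) * (1 + √(sq (k - l)))) * ‖A j (k - l)‖ :=
            mul_le_mul_of_nonneg_right h2 (norm_nonneg _)
        _ = √(sq k) * ((1 + √(sq (k - l))) * ‖A j (k - l)‖) := by ring
        _ ≤ √(sq k) * p (k - l) :=
            mul_le_mul_of_nonneg_left (hpj j (k - l)) (Real.sqrt_nonneg _)
    calc √(∑ i, ‖φ i l‖ ^ 2) * (√(sq (k - l)) * ‖A j (k - l)‖)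
        ≤ (∑ i, ‖φ i l‖) * (√(sq k) * p (k - l)) :=
          mul_le_mul h1 h3 (by positivity) (Finset.sum_nonneg fun i _ => norm_nonneg _)
      _ = √(sq k) * ∑ i, p (k - l) * ‖φ i l‖ := by
          rw [← Finset.mul_sum]
          ring
  -- Cauchy - Schwarz
  set h : Fin 2 → Z2 → ℝ := fun j k => √(‖off (φ j) k‖ ^ 2 / sq k) with hh
  have hh2 : ∀ j k, h j k ^ 2 = ‖off (φ j) k‖ ^ 2 / sq k := fun j k =>
    Real.sq_sqrt (div_nonneg (sq_nonneg _) (twc_sq_nonneg k))
  have hcs := fun i j => twc_cs (h j) (c i) (fun k => Real.sqrt_nonneg _) (hc0 i)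
    (by simp only [hh2]; exact (hGRF.1 (φ j) (hφ j)).2.2.2.1) (hY i).2.1
  set R : ℝ := wn A * (√(hm φ) * √(flu φ + mu φ)) with hR
  have hS : ∀ i j, ∑' k, h j k * c i k ≤ R := by
    intro i j
    refine (hcs i j).2.trans ?_
    have e1 : ∑' k, h j k ^ 2 ≤ hm φ := by
      simp only [hh2]
      unfold hm
      exact Finset.single_le_sum (f := fun j => hmS (φ j))
        (fun j _ => tsum_nonneg fun k => div_nonneg (sq_nonneg _) (twc_sq_nonneg k))
        (Finset.mem_univ j)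
    have e2 : ∑' k, c i k ^ 2 ≤ wn A ^ 2 * (flu φ + mu φ) := by
      refine (hY i).2.2.trans ?_
      rw [hpt]
      exact mul_le_mul_of_nonneg_left (wta_q hGRF φ hφ i) (sq_nonneg _)
    have e3 : √(∑' k, c i k ^ 2) ≤ wn A * √(flu φ + mu φ) := by
      refine (Real.sqrt_le_sqrt e2).trans (le_of_eq ?_)
      rw [Real.sqrt_mul (sq_nonneg _), Real.sqrt_sq hP0]
    calc √(∑' k, h j k ^ 2) * √(∑' k, c i k ^ 2) ≤ √(hm φ) * (wn A * √(flu φ + mu φ)) :=
          mul_le_mul (Real.sqrt_le_sqrt e1) e3 (Real.sqrt_nonneg _) (Real.sqrt_nonneg _)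
      _ = R := by
          rw [hR]
          ring
  have hj : ∀ j, ‖∑' k : Z2, ((starRingEnd ℂ) (off (φ j) k) *
      (adv A φ j k + adv φ A j k)).re / sq k‖ ≤ 3 * R := by
    intro j
    have hs := (hcs j j).1.hasSum.add
      (hasSum_sum (s := Finset.univ) fun i _ => (hcs i j).1.hasSum)
    refine (tsum_of_norm_bounded hs fun k => ?_).trans ?_
    · by_cases hk : k = 0
      · subst hk
        have e : off (φ j) 0 = 0 := by simp [off]
        rw [e, map_zero, zero_mul, Complex.zero_re, zero_div, norm_zero]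
        refine add_nonneg (mul_nonneg (Real.sqrt_nonneg _) (hc0 _ _))
          (Finset.sum_nonneg fun i _ => mul_nonneg (Real.sqrt_nonneg _) (hc0 _ _))
      · have hsk : 0 < √(sq k) := Real.sqrt_pos.2 (lt_of_lt_of_le one_pos (twc_sq_one hk))
        have hk2 : √(sq k) * √(sq k) = sq k := Real.mul_self_sqrt (twc_sq_nonneg k)
        have hhk : h j k = ‖off (φ j) k‖ / √(sq k) := by
          rw [hh]
          simp only
          rw [Real.sqrt_div (sq_nonneg _), Real.sqrt_sq (norm_nonneg _)]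
        have h1 : |((starRingEnd ℂ) (off (φ j) k) * (adv A φ j k + adv φ A j k)).re| ≤
            ‖off (φ j) k‖ * (√(sq k) * (c j k + ∑ i, c i k)) := by
          refine (Complex.abs_re_le_norm _).trans ?_
          rw [norm_mul, RCLike.norm_conj]
          refine mul_le_mul_of_nonneg_left ?_ (norm_nonneg _)
          refine (norm_add_le _ _).trans ?_
          rw [mul_add]
          exact add_le_add (hb1 j k hk) (hb2 j k hk)
        rw [Real.norm_eq_abs, abs_div, abs_of_nonneg (twc_sq_nonneg k), ← Finset.mul_sum,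
          ← mul_add, hhk]
        calc |((starRingEnd ℂ) (off (φ j) k) * (adv A φ j k + adv φ A j k)).re| / sq k
            ≤ (‖off (φ j) k‖ * (√(sq k) * (c j k + ∑ i, c i k))) / sq k :=
              div_le_div_of_nonneg_right h1 (twc_sq_nonneg k)
          _ = ‖off (φ j) k‖ / √(sq k) * (c j k + ∑ i, c i k) := by
              rw [div_mul_eq_mul_div, div_eq_div_iff (ne_of_gt (by rw [← hk2]; positivity)) hsk.ne']
              linear_combination (‖off (φ j) k‖ * (c j k + ∑ i, c i k)) * hk2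
    · rw [Fin.sum_univ_two]
      have a1 := hS j j
      have a2 := hS 0 j
      have a3 := hS 1 j
      linarith
  rw [Fin.sum_univ_two]
  have a1 := hj 0
  have a2 := hj 1
  rw [Real.norm_eq_abs] at a1 a2
  refine (abs_add_le _ _).trans ?_
  have e : 6 * wn A * (√(hm φ) * √(flu φ + mu φ)) = 6 * R := by
    rw [hR]
    ring
  rw [e]
  linarith

end HB
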